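import Pool.Agent.H83.AT.Targets

/-!
# MP_c9ef16_gt, topological half: `A ↦ A_U` is exact (module XC)
-/

open CategoryTheory CategoryTheory.Limits TopologicalSpace Topology Set Opposite

namespace Pool.Agent.H12.AT

open Pool.Agent.H96.AL Pool.Agent.H85.AU Pool.Agent.H83.AT

theorem pf_XC (hEX : T_EX) : T_XC := by
  intro F _ X U
  apply hEX F X X
  intro y
  by_cases hU : y ∈ U
  · refine Or.inr ⟨y, fun A => (LinearEquiv.ofBijective (sm (ic U A) y) (sm_ic_bij A hU)).symm, ?_⟩
    intro A B φ g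
    apply sm_ic_inj U B y
    have h1 : ∀ (A : Sh F X) (g : Stk A y), sm (ic U A) y
        ((LinearEquiv.ofBijective (sm (ic U A) y) (sm_ic_bij A hU)).symm g) = g :=
      fun A g => (LinearEquiv.ofBijective (sm (ic U A) y) (sm_ic_bij A hU)).apply_symm_apply g
    have h2 := sm_comp (cutMap (le_refl U) φ) (ic U B) y
      ((LinearEquiv.ofBijective (sm (ic U A) y) (sm_ic_bij A hU)).symm g)
    rw [cutMap_ic, sm_comp, h1 A] at h2
    exact h2.symm.trans (h1 B (sm φ y g)).symm
  · exact Or.inl fun A g => stk_cut_eq_zero A hU g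

end Pool.Agent.H12.AT
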